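import Pool.Agent.W345.GK.Cl2

/-! # Bernoulli-Carlitz numbers modulo `P` -/

set_option autoImplicit false

open Polynomial Finset

namespace Pool.Agent.W120.GK

open Pool.Agent.W345.GK

section
variable {k F : Type} [Field k] [Field F] [Algebra k F]

/-- reduction modulo `P`: `x = a / b`, `y = a(θ) / b(θ)` -/
def Red (P : k[X]) (θ : F) (x : RatFunc k) (y : F) : Prop :=
  ∃ a b : k[X], ¬ P ∣ b ∧ x * algebraMap k[X] (RatFunc k) b = algebraMap k[X] (RatFunc k) a ∧
    y * aeval θ b = aeval θ a

variable {P : k[X]} {θ : F}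

theorem Red.alg (hP : Irreducible P) (c : k[X]) :
    Red P θ (algebraMap k[X] (RatFunc k) c) (aeval θ c) :=
  ⟨c, 1, fun h => hP.not_isUnit (isUnit_of_dvd_one h), by simp, by simp⟩

theorem Red.zero (hP : Irreducible P) : Red P θ 0 0 := by
  simpa using Red.alg (θ := θ) hP 0

theorem Red.neg {x : RatFunc k} {y : F} (h : Red P θ x y) : Red P θ (-x) (-y) := by
  obtain ⟨a, b, hb, h1, h2⟩ := h
  exact ⟨-a, b, hb, by rw [neg_mul, h1, map_neg], by rw [neg_mul, h2, map_neg]⟩

theorem ndvd_mul (hP : Irreducible P) {b b' : k[X]} (hb : ¬ P ∣ b) (hb' : ¬ P ∣ b') :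
    ¬ P ∣ b * b' := by
  intro h
  rcases (Irreducible.prime hP).dvd_or_dvd h with h | h
  · exact hb h
  · exact hb' h

theorem Red.add (hP : Irreducible P) {x x' : RatFunc k} {y y' : F} (h : Red P θ x y)
    (h' : Red P θ x' y') : Red P θ (x + x') (y + y') := by
  obtain ⟨a, b, hb, h1, h2⟩ := h
  obtain ⟨a', b', hb', h1', h2'⟩ := h'
  refine ⟨a * b' + a' * b, b * b', ndvd_mul hP hb hb', ?_, ?_⟩
  · rw [map_mul, map_add, map_mul, map_mul, ← h1, ← h1']
    ring
  · rw [map_mul, map_add, map_mul, map_mul, ← h2, ← h2']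
    ring

theorem Red.mul (hP : Irreducible P) {x x' : RatFunc k} {y y' : F} (h : Red P θ x y)
    (h' : Red P θ x' y') : Red P θ (x * x') (y * y') := by
  obtain ⟨a, b, hb, h1, h2⟩ := h
  obtain ⟨a', b', hb', h1', h2'⟩ := h'
  refine ⟨a * a', b * b', ndvd_mul hP hb hb', ?_, ?_⟩
  · rw [map_mul, map_mul, ← h1, ← h1']
    ring
  · rw [map_mul, map_mul, ← h2, ← h2']
    ring

theorem Red.inv (h5 : ∀ a : k[X], aeval θ a = 0 ↔ P ∣ a) {x : RatFunc k} {y : F}
    (h : Red P θ x y) (hy : y ≠ 0) : Red P θ x⁻¹ y⁻¹ := by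
  obtain ⟨a, b, hb, h1, h2⟩ := h
  have hb' : aeval θ b ≠ 0 := fun e => hb ((h5 b).1 e)
  have ha' : aeval θ a ≠ 0 := by rw [← h2]; exact mul_ne_zero hy hb'
  have ha : ¬ P ∣ a := fun e => ha' ((h5 a).2 e)
  have ha0 : a ≠ 0 := by
    rintro rfl
    exact ha (dvd_zero _)
  have ha1 : algebraMap k[X] (RatFunc k) a ≠ 0 := fun e =>
    ha0 (RatFunc.algebraMap_injective k (by rw [e, map_zero]))
  have hx : x ≠ 0 := by
    rintro rfl
    rw [zero_mul] at h1
    exact ha1 h1.symm
  refine ⟨b, a, ha, ?_, ?_⟩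
  · rw [← h1, ← mul_assoc, inv_mul_cancel₀ hx, one_mul]
  · rw [← h2, ← mul_assoc, inv_mul_cancel₀ hy, one_mul]

theorem Red.uniq (h5 : ∀ a : k[X], aeval θ a = 0 ↔ P ∣ a) {x : RatFunc k} {y y' : F}
    (h : Red P θ x y) (h' : Red P θ x y') : y = y' := by
  obtain ⟨a, b, hb, h1, h2⟩ := h
  obtain ⟨a', b', hb', h1', h2'⟩ := h'
  have hbn : aeval θ b ≠ 0 := fun e => hb ((h5 b).1 e)
  have hbn' : aeval θ b' ≠ 0 := fun e => hb' ((h5 b').1 e)
  have e1 : a * b' = a' * b := by
    apply RatFunc.algebraMap_injective k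
    rw [map_mul, map_mul, ← h1, ← h1']
    ring
  have e2 : aeval θ a * aeval θ b' = aeval θ a' * aeval θ b := by
    rw [← map_mul, ← map_mul, e1]
  rw [← h2, ← h2'] at e2
  have e3 : y * (aeval θ b * aeval θ b') = y' * (aeval θ b * aeval θ b') := by
    linear_combination e2
  exact mul_right_cancel₀ (mul_ne_zero hbn hbn') e3

theorem Red.sum (hP : Irreducible P) {ι : Type} (s : Finset ι) (f : ι → RatFunc k) (g : ι → F)
    (h : ∀ i ∈ s, Red P θ (f i) (g i)) : Red P θ (∑ i ∈ s, f i) (∑ i ∈ s, g i) := by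
  classical
  induction s using Finset.induction_on with
  | empty => simpa using Red.zero hP
  | insert a s ha ih =>
    rw [Finset.sum_insert ha, Finset.sum_insert ha]
    exact Red.add hP (h a (Finset.mem_insert_self a s))
      (ih fun i hi => h i (Finset.mem_insert_of_mem hi))

theorem Red.pdiv (hθ : aeval θ P = 0) {x : RatFunc k} (h : PDiv P x) : Red P θ x 0 := by
  obtain ⟨a, b, hb, h1⟩ := h
  exact ⟨P * a, b, hb, h1, by rw [map_mul, hθ, zero_mul, zero_mul]⟩

end

theorem ae_Dc {k F : Type} [Field k] [Fintype k] [Field F] [Algebra k F] (θ : F) (s : ℕ) :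
    aeval θ (Dc k s) = Dt (Fintype.card k) θ s := by
  unfold Dc Dt
  rw [map_prod]
  refine Finset.prod_congr rfl fun j _ => ?_
  rw [map_sub, map_pow, map_pow, aeval_X]

theorem ber : S_C3 → S_BER := by
  intro hC3 k F _ _ _ _ P θ n hPm hP hθ hn hdiv
  obtain ⟨_, hinj, _, _, h5, _⟩ := hC3 k F P θ hPm hP hθ
  set q := Fintype.card k with hq
  set d := P.natDegree with hd
  have hq1 : 1 < q := Fintype.one_lt_card
  have hDt : ∀ s < d, Dt q θ s ≠ 0 := by
    intro s hs
    unfold Dt
    rw [Finset.prod_ne_zero_iff]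
    intro l hl e
    have hl' : l < s := mem_range.1 hl
    have := hinj s hs l (by omega) (sub_eq_zero.1 e)
    omega
  have hd0 : 0 < d := hP.natDegree_pos
  -- coefficients
  have hco : ∀ m < q ^ d - 1, Red P θ (PowerSeries.coeff m (eDivZ k))
      (PowerSeries.coeff m (∑ s ∈ range d, PowerSeries.monomial (q ^ s - 1) ((Dt q θ s)⁻¹))) := by
    intro m hm
    rw [map_sum]
    simp only [PowerSeries.coeff_monomial]
    unfold eDivZ
    rw [PowerSeries.coeff_mk]
    by_cases h : q ^ (Nat.log q (m + 1)) = m + 1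
    · rw [if_pos h]
      set s0 := Nat.log q (m + 1) with hs0
      have hs : s0 < d := by
        rw [← Nat.pow_lt_pow_iff_right hq1, h]
        omega
      rw [Finset.sum_eq_single s0]
      · rw [if_pos (by omega), ← ae_Dc (k := k) θ s0]
        refine Red.inv h5 (Red.alg hP _) ?_
        rw [ae_Dc]
        exact hDt s0 hs
      · intro s _ hss
        rw [if_neg]
        intro e
        have hp : 0 < q ^ s := Nat.pow_pos (by omega)
        have h1 : q ^ s = q ^ s0 := by omega
        exact hss (Nat.pow_right_injective hq1 h1)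
      · intro hc
        exact absurd (mem_range.2 hs) hc
    · rw [if_neg h, Finset.sum_eq_zero]
      · exact Red.zero hP
      · intro s _
        rw [if_neg]
        intro e
        have hp : 0 < q ^ s := Nat.pow_pos (by omega)
        have h1 : m + 1 = q ^ s := by omega
        apply h
        rw [h1, Nat.log_pow hq1]
  -- the inverse
  have hinv : ∀ m < q ^ d - 1, Red P θ (PowerSeries.coeff m (eDivZ k)⁻¹)
      (PowerSeries.coeff m (bet q d θ)) := by
    intro m
    induction m using Nat.strong_induction_on with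
    | _ m ih =>
    intro hm
    unfold bet
    have hpos : 0 < q ^ d - 1 := by omega
    have h0 := hco 0 hpos
    rw [PowerSeries.coeff_zero_eq_constantCoeff, PowerSeries.coeff_zero_eq_constantCoeff] at h0
    have hne : PowerSeries.constantCoeff
        (∑ s ∈ range d, PowerSeries.monomial (q ^ s - 1) ((Dt q θ s)⁻¹) : PowerSeries F) ≠ 0 := by
      rw [← PowerSeries.coeff_zero_eq_constantCoeff_apply, map_sum]
      simp only [PowerSeries.coeff_monomial]
      rw [Finset.sum_eq_single 0]
      · rw [if_pos (by simp)]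
        exact inv_ne_zero (hDt 0 hd0)
      · intro s _ hs
        rw [if_neg]
        intro e
        have hp : q ^ 0 < q ^ s := Nat.pow_lt_pow_right hq1 (by omega)
        simp only [pow_zero] at hp
        omega
      · intro hc
        exact absurd (mem_range.2 hd0) hc
    have h0' := Red.inv h5 h0 hne
    rw [PowerSeries.coeff_inv, PowerSeries.coeff_inv]
    by_cases hm0 : m = 0
    · rw [if_pos hm0, if_pos hm0]
      exact h0'
    · rw [if_neg hm0, if_neg hm0]
      refine Red.mul hP h0'.neg (Red.sum hP _ _ _ fun x hx => ?_)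
      have hxs := Finset.HasAntidiagonal.mem_antidiagonal.1 hx
      by_cases hx2 : x.2 < m
      · rw [if_pos hx2, if_pos hx2]
        exact Red.mul hP (hco x.1 (by omega)) (ih x.2 hx2 (by omega))
      · rw [if_neg hx2, if_neg hx2]
        exact Red.zero hP
  have hcf : aeval θ (carFac k n) ≠ 0 := by
    unfold carFac
    rw [map_prod, Finset.prod_ne_zero_iff]
    intro i _
    rw [map_pow, ae_Dc]
    by_cases hi : i < d
    · exact pow_ne_zero _ (hDt i hi)
    · have h1 : q ^ d ≤ q ^ i := Nat.pow_le_pow_right (by omega) (by omega)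
      have h2 : n / q ^ i = 0 := Nat.div_eq_of_lt (by omega)
      rw [h2, Nat.zero_mod, pow_zero]
      exact one_ne_zero
  have h1 := Red.mul hP (Red.alg (θ := θ) hP (carFac k n)) (hinv n hn)
  have h2 := Red.uniq h5 h1 (Red.pdiv hθ hdiv)
  exact (mul_eq_zero.1 h2).resolve_left hcf

end Pool.Agent.W120.GK
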