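import Pool.Agent.W345.GK.Cl2

/-! # Digits: the exponents `n_i` -/

set_option autoImplicit false

open Finset

namespace Pool.Agent.W120.GK

open Pool.Agent.W345.GK

theorem sum_dig (q κ : ℕ) : ∀ d : ℕ, ∑ j ∈ range d, dig q κ j * q ^ j = κ % q ^ d
  | 0 => by simp [Nat.mod_one]
  | d + 1 => by
    rw [sum_range_succ, sum_dig q κ d, Nat.mod_pow_succ]
    unfold dig
    ring

theorem sum_lt (q : ℕ) (f : ℕ → ℕ) (hf : ∀ s, f s < q) :
    ∀ d : ℕ, ∑ s ∈ range d, f s * q ^ s < q ^ d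
  | 0 => by simp
  | d + 1 => by
    rw [sum_range_succ, pow_succ]
    have h1 := sum_lt q f hf d
    have h2 : (f d + 1) * q ^ d ≤ q * q ^ d := Nat.mul_le_mul_right _ (hf d)
    nlinarith

theorem inv1 (d i s : ℕ) (hi : i < d) (hs : s < d) : ((i + s) % d + d - i) % d = s := by
  by_cases h : i + s < d
  · rw [Nat.mod_eq_of_lt h, show i + s + d - i = s + d by omega, Nat.add_mod_right,
      Nat.mod_eq_of_lt hs]
  · have h1 : (i + s) % d = i + s - d := by
      rw [Nat.mod_eq_sub_mod (by omega), Nat.mod_eq_of_lt (by omega)]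
    rw [h1, show i + s - d + d - i = s by omega, Nat.mod_eq_of_lt hs]

theorem inv2 (d i j : ℕ) (hi : i < d) (hj : j < d) : (i + (j + d - i) % d) % d = j := by
  rw [Nat.add_mod_mod, show i + (j + d - i) = j + d by omega, Nat.add_mod_right,
    Nat.mod_eq_of_lt hj]

theorem nn_ok : S_NN := by
  intro q d κ i hq hd hκ hκ' hi
  set N := q ^ d - 1 with hN
  have hqd : 1 ≤ q ^ d := Nat.one_le_pow _ _ (by omega)
  have hN1 : q ^ d = N + 1 := by omega
  have hq1 : (q : ZMod N) ^ d = 1 := by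
    have : ((q ^ d : ℕ) : ZMod N) = ((N + 1 : ℕ) : ZMod N) := by rw [hN1]
    simpa using this
  have h1 : (q : ZMod N) ^ i * (nn q d κ i : ℕ) = (κ : ZMod N) := by
    have e1 : (κ : ℕ) = ∑ j ∈ range d, dig q κ j * q ^ j := by
      rw [sum_dig, Nat.mod_eq_of_lt (by omega)]
    have e2 : (κ : ZMod N) = ∑ j ∈ range d, (dig q κ j : ZMod N) * (q : ZMod N) ^ j := by
      conv_lhs => rw [e1]
      push_cast
      rfl
    rw [e2]
    unfold nn
    push_cast
    rw [Finset.mul_sum]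
    refine Finset.sum_nbij' (fun s => (i + s) % d) (fun j => (j + d - i) % d) ?_ ?_ ?_ ?_ ?_
    · intro s _
      exact mem_range.2 (Nat.mod_lt _ hd)
    · intro j _
      exact mem_range.2 (Nat.mod_lt _ hd)
    · intro s hs
      exact inv1 d i s hi (mem_range.1 hs)
    · intro j hj
      exact inv2 d i j hi (mem_range.1 hj)
    · intro s _
      have h3 : (q : ZMod N) ^ ((i + s) % d) = (q : ZMod N) ^ (i + s) :=
        (pow_eq_pow_mod (i + s) hq1).symm
      show (q : ZMod N) ^ i * ((dig q κ ((i + s) % d) : ZMod N) * (q : ZMod N) ^ s) =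
        (dig q κ ((i + s) % d) : ZMod N) * (q : ZMod N) ^ ((i + s) % d)
      rw [h3, pow_add]
      ring
  have h2 : (nn q d κ i : ZMod N) = ((q ^ (d - i) * κ : ℕ) : ZMod N) := by
    push_cast
    rw [← h1, ← mul_assoc, ← pow_add, show d - i + i = d by omega, hq1, one_mul]
  have h4 : nn q d κ i < q ^ d := sum_lt q _ (fun s => Nat.mod_lt _ (by omega)) d
  have h5 : ¬ N ∣ nn q d κ i := by
    intro h
    have h6 : (nn q d κ i : ZMod N) = 0 := (ZMod.natCast_eq_zero_iff _ _).2 h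
    rw [h6, mul_zero] at h1
    have h7 : N ∣ κ := (ZMod.natCast_eq_zero_iff _ _).1 h1.symm
    exact absurd (Nat.le_of_dvd hκ h7) (by omega)
  refine ⟨Nat.pos_of_ne_zero fun h => h5 (h ▸ dvd_zero _), ?_, d - i, ?_⟩
  · by_contra h
    have h8 : nn q d κ i = N := by omega
    exact h5 (h8 ▸ dvd_refl _)
  · exact (ZMod.natCast_eq_natCast_iff _ _ _).1 h2

end Pool.Agent.W120.GK
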